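import Mathlib

set_option autoImplicit false

namespace Pool.Agent.H585R3.AC508

open MeasureTheory Set

theorem poisson_lint (x η : ℝ) (hη : 0 < η) :
    ∫⁻ E : ℝ, ENNReal.ofReal (η / ((x - E) ^ 2 + η ^ 2)) ≤ ENNReal.ofReal Real.pi := by
  have h1 : ∫⁻ E : ℝ, ENNReal.ofReal (η / ((x - E) ^ 2 + η ^ 2)) =
      ∫⁻ t : ℝ, ENNReal.ofReal (η / (t ^ 2 + η ^ 2)) :=
    lintegral_sub_left_eq_self (fun t => ENNReal.ofReal (η / (t ^ 2 + η ^ 2))) x
  have h2 : (fun t : ℝ => η / (t ^ 2 + η ^ 2)) = fun t => η⁻¹ * (1 + (t / η) ^ 2)⁻¹ := by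
    funext t
    have : t ^ 2 + η ^ 2 ≠ 0 := by positivity
    have h' : 1 + (t / η) ^ 2 ≠ 0 := by positivity
    field_simp
    ring
  have hint : Integrable (fun t : ℝ => η / (t ^ 2 + η ^ 2)) := by
    rw [h2]
    exact (integrable_inv_one_add_sq.comp_div hη.ne').const_mul _
  rw [h1, ← ofReal_integral_eq_lintegral_ofReal hint
    (Filter.Eventually.of_forall fun t => by positivity)]
  apply ENNReal.ofReal_le_ofReal
  rw [h2, integral_const_mul, Measure.integral_comp_div (fun t : ℝ => (1 + t ^ 2)⁻¹) η,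
    integral_univ_inv_one_add_sq, abs_of_pos hη]
  simp only [smul_eq_mul]
  rw [← mul_assoc, inv_mul_cancel₀ hη.ne', one_mul]

theorem meas_part (μ : Measure ℝ) [IsFiniteMeasure μ] (S : Set ℝ) (hS : MeasurableSet S)
    (hS0 : volume S ≠ 0) (c : ℝ) (hc : 0 < c)
    (h : ∀ E ∈ S, ∀ η : ℝ, 0 < η → η ≤ 1 → c ≤ ∫ x, η / ((x - E) ^ 2 + η ^ 2) ∂μ) :
    ¬ μ.MutuallySingular volume := by
  rintro ⟨A, hA, hA1, hA2⟩
  have hSA : volume (S ∩ A) ≠ 0 := by
    intro h0
    apply hS0
    have : S ⊆ (S ∩ A) ∪ Aᶜ := by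
      intro x hx
      by_cases hxA : x ∈ A
      · exact Or.inl ⟨hx, hxA⟩
      · exact Or.inr hxA
    exact measure_mono_null this (measure_union_null h0 hA2)
  obtain ⟨B, hB, hBc, hBv⟩ := (hS.inter hA).exists_lt_isCompact (pos_iff_ne_zero.mpr hSA)
  have hBA : B ⊆ A := hB.trans inter_subset_right
  have hBS : B ⊆ S := hB.trans inter_subset_left
  have hμB : μ B = 0 := measure_mono_null hBA hA1
  have hBfin : volume B ≠ ⊤ := hBc.measure_lt_top.ne
  set L : ℝ := (volume B).toReal with hL
  have hLpos : 0 < L := ENNReal.toReal_pos hBv.ne' hBfin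
  have hLe : volume B = ENNReal.ofReal L := (ENNReal.ofReal_toReal hBfin).symm
  set m : ℝ := (μ univ).toReal with hm
  have hme : μ univ = ENNReal.ofReal m := (ENNReal.ofReal_toReal (measure_ne_top μ _)).symm
  have hm0 : 0 ≤ m := ENNReal.toReal_nonneg
  set ε : ℝ := c * L / (4 * Real.pi) with hε
  have hεpos : 0 < ε := by positivity
  obtain ⟨U, hBU, hU, hμU⟩ := B.exists_isOpen_lt_of_lt (μ := μ) (ENNReal.ofReal ε)
    (by rw [hμB]; simpa using hεpos)
  obtain ⟨δ, hδ, hthick⟩ := hBc.exists_thickening_subset_open hU hBU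
  have hdist : ∀ x, x ∉ U → ∀ E ∈ B, δ ^ 2 ≤ (x - E) ^ 2 := by
    intro x hx E hE
    have h1 : ¬ dist x E < δ := by
      intro hlt
      apply hx
      apply hthick
      rw [Metric.mem_thickening_iff]
      exact ⟨E, hE, hlt⟩
    rw [not_lt, Real.dist_eq] at h1
    have : δ ^ 2 ≤ |x - E| ^ 2 := pow_le_pow_left₀ hδ.le h1 2
    rwa [sq_abs] at this
  -- main estimate
  have main : ∀ η : ℝ, 0 < η → η ≤ 1 →
      ENNReal.ofReal c * volume B ≤
        ENNReal.ofReal Real.pi * μ U + ENNReal.ofReal (η / δ ^ 2) * volume B * μ univ := by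
    intro η hη hη1
    have hcont : Continuous fun p : ℝ × ℝ => η / ((p.2 - p.1) ^ 2 + η ^ 2) := by
      apply Continuous.div continuous_const (by fun_prop)
      intro p
      positivity
    have e1 : ENNReal.ofReal c * volume B ≤
        ∫⁻ E in B, ∫⁻ x, ENNReal.ofReal (η / ((x - E) ^ 2 + η ^ 2)) ∂μ := by
      rw [← setLIntegral_const]
      apply setLIntegral_mono' hBc.measurableSet
      intro E hE
      have hint : Integrable (fun x : ℝ => η / ((x - E) ^ 2 + η ^ 2)) μ := by
        apply Integrable.of_bound (C := 1 / η)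
        · apply Continuous.aestronglyMeasurable
          apply Continuous.div continuous_const (by fun_prop)
          intro p
          positivity
        · apply Filter.Eventually.of_forall
          intro x
          rw [Real.norm_eq_abs, abs_of_nonneg (by positivity), div_le_div_iff₀ (by positivity) hη]
          nlinarith [sq_nonneg (x - E)]
      rw [← ofReal_integral_eq_lintegral_ofReal hint
        (Filter.Eventually.of_forall fun x => by positivity)]
      exact ENNReal.ofReal_le_ofReal (h E (hBS hE) η hη hη1)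
    have e2 : ∫⁻ E in B, ∫⁻ x, ENNReal.ofReal (η / ((x - E) ^ 2 + η ^ 2)) ∂μ =
        ∫⁻ x, (∫⁻ E in B, ENNReal.ofReal (η / ((x - E) ^ 2 + η ^ 2))) ∂μ := by
      rw [lintegral_lintegral_swap]
      apply Measurable.aemeasurable
      exact (ENNReal.measurable_ofReal.comp hcont.measurable)
    have e3 : ∫⁻ x, (∫⁻ E in B, ENNReal.ofReal (η / ((x - E) ^ 2 + η ^ 2))) ∂μ ≤
        ENNReal.ofReal Real.pi * μ U + ENNReal.ofReal (η / δ ^ 2) * volume B * μ univ := by
      rw [← lintegral_add_compl _ hU.measurableSet]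
      apply add_le_add
      · calc ∫⁻ x in U, (∫⁻ E in B, ENNReal.ofReal (η / ((x - E) ^ 2 + η ^ 2))) ∂μ
            ≤ ∫⁻ x in U, ENNReal.ofReal Real.pi ∂μ := by
              apply lintegral_mono
              intro x
              exact (setLIntegral_le_lintegral _ _).trans (poisson_lint x η hη)
          _ = _ := setLIntegral_const _ _
      · calc ∫⁻ x in Uᶜ, (∫⁻ E in B, ENNReal.ofReal (η / ((x - E) ^ 2 + η ^ 2))) ∂μ
            ≤ ∫⁻ x in Uᶜ, ENNReal.ofReal (η / δ ^ 2) * volume B ∂μ := by
              apply setLIntegral_mono' hU.measurableSet.compl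
              intro x hx
              rw [← setLIntegral_const]
              apply setLIntegral_mono' hBc.measurableSet
              intro E hE
              apply ENNReal.ofReal_le_ofReal
              apply div_le_div_of_nonneg_left hη.le (by positivity)
              have := hdist x hx E hE
              nlinarith [sq_nonneg η]
          _ = ENNReal.ofReal (η / δ ^ 2) * volume B * μ Uᶜ := setLIntegral_const _ _
          _ ≤ _ := by gcongr; exact subset_univ _
    exact e1.trans (e2.le.trans e3)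
  -- choose η
  set η : ℝ := min 1 (c * δ ^ 2 / (4 * (m + 1))) with hη
  have hηpos : 0 < η := lt_min one_pos (by positivity)
  have := main η hηpos (min_le_left _ _)
  rw [hLe, hme] at this
  have h2 : ENNReal.ofReal (c * L) ≤ ENNReal.ofReal (Real.pi * ε + η / δ ^ 2 * L * m) := by
    rw [ENNReal.ofReal_mul hc.le, ENNReal.ofReal_add (by positivity) (by positivity),
      ENNReal.ofReal_mul Real.pi_pos.le, ENNReal.ofReal_mul (by positivity),
      ENNReal.ofReal_mul (by positivity)]
    refine this.trans ?_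
    gcongr
  rw [ENNReal.ofReal_le_ofReal_iff (by positivity)] at h2
  have h3 : Real.pi * ε = c * L / 4 := by
    rw [hε]
    field_simp
  have h4 : η / δ ^ 2 ≤ c / (4 * (m + 1)) := by
    have : η ≤ c * δ ^ 2 / (4 * (m + 1)) := min_le_right _ _
    rw [div_le_iff₀ (by positivity)]
    calc η ≤ _ := this
      _ = _ := by ring
  have h5 : η / δ ^ 2 * L * m ≤ c * L / 4 := by
    calc η / δ ^ 2 * L * m ≤ c / (4 * (m + 1)) * L * m := by gcongr
      _ = c * L / 4 * (m / (m + 1)) := by field_simp
      _ ≤ c * L / 4 * 1 := by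
          gcongr
          rw [div_le_one (by positivity)]
          linarith
      _ = c * L / 4 := mul_one _
  have h6 : 0 < c * L := by positivity
  linarith

end Pool.Agent.H585R3.AC508
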