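import Pool.Agent.H585R3.AC508a
import Pool.Agent.H585R3.AC508b

set_option autoImplicit false

namespace Pool.Agent.H585R3.AC508

open MeasureTheory Set
open scoped ENNReal

/-- continuous functional calculus for bounded operators on a general Hilbert space -/
noncomputable def cfcG {X : Type} [NormedAddCommGroup X] [InnerProductSpace ℂ X] [CompleteSpace X]
    (f : ℝ → ℝ) (H : X →L[ℂ] X) : X →L[ℂ] X := cfc f H

/-- forward solution pairs `(u n, u (n+1))` -/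
noncomputable def fwd (V : ℤ → ℝ) (E p q : ℝ) : ℕ → ℝ × ℝ
  | 0 => (p, q)
  | (n + 1) => ((fwd V E p q n).2, (E - V ((n : ℤ) + 1)) * (fwd V E p q n).2 - (fwd V E p q n).1)

/-- backward solution pairs `(u (-n), u (-n+1))` -/
noncomputable def bwd (V : ℤ → ℝ) (E p q : ℝ) : ℕ → ℝ × ℝ
  | 0 => (p, q)
  | (n + 1) => ((E - V (-(n : ℤ))) * (bwd V E p q n).1 - (bwd V E p q n).2, (bwd V E p q n).1)

theorem exists_sol (V : ℤ → ℝ) (E p q : ℝ) :
    ∃ u : ℤ → ℝ, u 0 = p ∧ u 1 = q ∧ ∀ n, u (n + 1) + u (n - 1) + V n * u n = E * u n := by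
  refine ⟨fun n => if 0 ≤ n then (fwd V E p q n.toNat).1 else (bwd V E p q (-n).toNat).1, ?_, ?_, ?_⟩
  · simp [fwd]
  · simp [fwd]
  · intro n
    rcases lt_trichotomy n 0 with hn | hn | hn
    · obtain ⟨k, rfl⟩ : ∃ k : ℕ, n = -((k : ℤ) + 1) := ⟨(-n - 1).toNat, by omega⟩
      have e3 : (fun n : ℤ => if 0 ≤ n then (fwd V E p q n.toNat).1 else
          (bwd V E p q (-n).toNat).1) (-((k : ℤ) + 1) - 1) = (bwd V E p q (k + 2)).1 := by
        have h1 : ¬ (0 : ℤ) ≤ -((k : ℤ) + 1) - 1 := by omega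
        have h2 : (-(-((k : ℤ) + 1) - 1)).toNat = k + 2 := by omega
        simp only [h1, if_false, h2]
      have e2 : (fun n : ℤ => if 0 ≤ n then (fwd V E p q n.toNat).1 else
          (bwd V E p q (-n).toNat).1) (-((k : ℤ) + 1)) = (bwd V E p q (k + 1)).1 := by
        have h1 : ¬ (0 : ℤ) ≤ -((k : ℤ) + 1) := by omega
        have h2 : (-(-((k : ℤ) + 1))).toNat = k + 1 := by omega
        simp only [h1, if_false, h2]
      have e1 : (fun n : ℤ => if 0 ≤ n then (fwd V E p q n.toNat).1 else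
          (bwd V E p q (-n).toNat).1) (-((k : ℤ) + 1) + 1) = (bwd V E p q k).1 := by
        rcases Nat.eq_zero_or_pos k with rfl | hk
        · simp [fwd, bwd]
        · have h1 : ¬ (0 : ℤ) ≤ -((k : ℤ) + 1) + 1 := by omega
          have h2 : (-(-((k : ℤ) + 1) + 1)).toNat = k := by omega
          simp only [h1, if_false, h2]
      rw [e1, e2, e3]
      have e4 : (bwd V E p q (k + 2)).1 =
          (E - V (-(((k + 1 : ℕ) : ℤ)))) * (bwd V E p q (k + 1)).1 - (bwd V E p q (k + 1)).2 := rfl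
      have e5 : (bwd V E p q (k + 1)).2 = (bwd V E p q k).1 := rfl
      rw [e4, e5]
      push_cast
      ring
    · subst hn
      simp [fwd, bwd]
      ring
    · obtain ⟨k, rfl⟩ : ∃ k : ℕ, n = (k : ℤ) + 1 := ⟨(n - 1).toNat, by omega⟩
      have e1 : (fun n : ℤ => if 0 ≤ n then (fwd V E p q n.toNat).1 else
          (bwd V E p q (-n).toNat).1) ((k : ℤ) + 1 + 1) = (fwd V E p q (k + 2)).1 := by
        have h1 : (0 : ℤ) ≤ (k : ℤ) + 1 + 1 := by omega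
        have h2 : ((k : ℤ) + 1 + 1).toNat = k + 2 := by omega
        simp only [h1, if_true, h2]
      have e2 : (fun n : ℤ => if 0 ≤ n then (fwd V E p q n.toNat).1 else
          (bwd V E p q (-n).toNat).1) ((k : ℤ) + 1) = (fwd V E p q (k + 1)).1 := by
        have h1 : (0 : ℤ) ≤ (k : ℤ) + 1 := by omega
        have h2 : ((k : ℤ) + 1).toNat = k + 1 := by omega
        simp only [h1, if_true, h2]
      have e3 : (fun n : ℤ => if 0 ≤ n then (fwd V E p q n.toNat).1 else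
          (bwd V E p q (-n).toNat).1) ((k : ℤ) + 1 - 1) = (fwd V E p q k).1 := by
        have h1 : (0 : ℤ) ≤ (k : ℤ) + 1 - 1 := by omega
        have h2 : ((k : ℤ) + 1 - 1).toNat = k := by omega
        simp only [h1, if_true, h2]
      rw [e1, e2, e3]
      have e4 : (fwd V E p q (k + 2)).1 =
          (E - V ((k : ℤ) + 1)) * (fwd V E p q k).2 - (fwd V E p q k).1 := rfl
      have e5 : (fwd V E p q (k + 1)).1 = (fwd V E p q k).2 := rfl
      rw [e4, e5]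
      ring

theorem lp_partial (ψ : lp (fun _ : ℤ => ℂ) 2) (e : ℕ ↪ ℤ) (N : ℕ) :
    ∑ k ∈ Finset.range N, ‖ψ (e k)‖ ^ 2 ≤ ‖ψ‖ ^ 2 := by
  have h2 : (0 : ℝ) < (2 : ℝ≥0∞).toReal := by norm_num
  have h := lp.sum_rpow_le_norm_rpow h2 ψ ((Finset.range N).map e)
  rw [Finset.sum_map] at h
  have h5 : (2 : ℝ≥0∞).toReal = ((2 : ℕ) : ℝ) := by norm_num
  simpa only [h5, Real.rpow_natCast] using h

theorem lower (V : ℤ → ℝ) (C : ℝ) (hC : ∀ n, |V n| ≤ C)
    (H : lp (fun _ : ℤ => ℂ) 2 →L[ℂ] lp (fun _ : ℤ => ℂ) 2)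
    (hH : ∀ (ψ : lp (fun _ : ℤ => ℂ) 2) (n : ℤ),
      H ψ n = ψ (n + 1) + ψ (n - 1) + (V n : ℂ) * ψ n)
    (hsa : IsSelfAdjoint H) (μ : Measure ℝ)
    (hμ : ∀ f : ℝ → ℝ, Continuous f → Integrable f μ ∧
      ((∫ x, f x ∂μ : ℝ) : ℂ) = inner ℂ (lp.single 2 (0 : ℤ) (1 : ℂ) : lp (fun _ : ℤ => ℂ) 2)
        (cfcG f H (lp.single 2 (0 : ℤ) (1 : ℂ))))
    (K R E : ℝ) (hR : |E| ≤ R)
    (hK : ∀ u : ℤ → ℝ, (∀ n, u (n + 1) + u (n - 1) + V n * u n = E * u n) →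
      ∀ n, u n ^ 2 + u (n + 1) ^ 2 ≤ K * (u 0 ^ 2 + u 1 ^ 2))
    (η : ℝ) (hη : 0 < η) (hη1 : η ≤ 1) :
    1 ≤ (288 * K ^ 2 * (1 + (C + R + 1) ^ 2)) * ∫ x, η / ((x - E) ^ 2 + η ^ 2) ∂μ := by
  set δ : lp (fun _ : ℤ => ℂ) 2 := lp.single 2 (0 : ℤ) (1 : ℂ) with hδ
  obtain ⟨ψ, hψ1, hψ2⟩ := res_aux H hsa δ E η hη
  have hcont : Continuous fun x : ℝ => η / ((x - E) ^ 2 + η ^ 2) := by
    apply Continuous.div continuous_const (by fun_prop)
    intro p
    positivity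
  have hI : ∫ x, η / ((x - E) ^ 2 + η ^ 2) ∂μ = η * ‖ψ‖ ^ 2 := by
    have h1 := (hμ _ hcont).2
    have h2 : inner ℂ δ (cfcG (fun x : ℝ => η / ((x - E) ^ 2 + η ^ 2)) H δ) =
        ((η * ‖ψ‖ ^ 2 : ℝ) : ℂ) := hψ2
    rw [h2] at h1
    exact_mod_cast h1
  rw [hI]
  set T : ℝ := ‖ψ‖ ^ 2 with hT
  have hC0 : 0 ≤ C := (abs_nonneg _).trans (hC 0)
  have hR0 : 0 ≤ R := (abs_nonneg _).trans hR
  -- the recurrence
  have hrec : ∀ n : ℤ, ψ (n + 1) + ψ (n - 1) + (V n : ℂ) * ψ n =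
      ((E : ℂ) + η * Complex.I) * ψ n + δ n := by
    intro n
    rw [← hH, hψ1]
    rfl
  have δ0 : δ 0 = 1 := by
    rw [hδ, lp.single_apply_self]
  have δn : ∀ n : ℤ, n ≠ 0 → δ n = 0 := by
    intro n hn
    rw [hδ, lp.single_apply_ne _ _ _ hn]
  -- real solutions
  obtain ⟨u, hu0, hu1, hu⟩ := exists_sol V E 1 0
  obtain ⟨v, hv0, hv1, hv⟩ := exists_sol V E 0 1
  have bu := hK u hu
  have bv := hK v hv
  rw [hu0, hu1] at bu
  rw [hv0, hv1] at bv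
  have bu' : ∀ n, u n ^ 2 + u (n + 1) ^ 2 ≤ K := fun n => by
    have := bu n
    norm_num at this
    exact this
  have bv' : ∀ n, v n ^ 2 + v (n + 1) ^ 2 ≤ K := fun n => by
    have := bv n
    norm_num at this
    exact this
  have right : ‖ψ 0‖ ^ 2 + ‖ψ 1‖ ^ 2 ≤ 48 * K ^ 2 * (η * T) := by
    have := seq_lower (fun k => V (k : ℤ)) E η K T hη hη1 (fun k => ψ (k : ℤ)) (by
        intro n
        have h1 := hrec ((n : ℤ) + 1)
        rw [δn _ (by omega)] at h1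
        have h2 : ((n : ℤ) + 1 + 1) = ((n + 2 : ℕ) : ℤ) := by push_cast; ring
        have h3 : ((n : ℤ) + 1 - 1) = (n : ℤ) := by ring
        have h4 : ((n : ℤ) + 1) = ((n + 1 : ℕ) : ℤ) := by push_cast; ring
        rw [h2, h3, h4] at h1
        simp only
        linear_combination h1) (fun k => u (k : ℤ)) (fun k => v (k : ℤ)) (by
        intro n
        have h1 := hu ((n : ℤ) + 1)
        have h2 : ((n : ℤ) + 1 + 1) = ((n + 2 : ℕ) : ℤ) := by push_cast; ring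
        have h3 : ((n : ℤ) + 1 - 1) = (n : ℤ) := by ring
        have h4 : ((n : ℤ) + 1) = ((n + 1 : ℕ) : ℤ) := by push_cast; ring
        rw [h2, h3, h4] at h1
        linear_combination h1) (by
        intro n
        have h1 := hv ((n : ℤ) + 1)
        have h2 : ((n : ℤ) + 1 + 1) = ((n + 2 : ℕ) : ℤ) := by push_cast; ring
        have h3 : ((n : ℤ) + 1 - 1) = (n : ℤ) := by ring
        have h4 : ((n : ℤ) + 1) = ((n + 1 : ℕ) : ℤ) := by push_cast; ring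
        rw [h2, h3, h4] at h1
        linear_combination h1) (by simp [hu0, hu1, hv0, hv1]) (by
        intro n
        have := bu' (n : ℤ)
        push_cast
        exact this) (by
        intro n
        have := bv' (n : ℤ)
        push_cast
        exact this) (by
        intro N
        exact lp_partial ψ ⟨fun k : ℕ => (k : ℤ), fun a b h => by
          have h' : (a : ℤ) = b := h
          exact_mod_cast h'⟩ N)
    simpa using this
  have left : ‖ψ 0‖ ^ 2 + ‖ψ (-1)‖ ^ 2 ≤ 48 * K ^ 2 * (η * T) := by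
    have hum : u (-1) = E - V 0 := by
      have := hu 0
      rw [hu0] at this
      simp only [zero_add, zero_sub, hu1] at this
      linarith
    have hvm : v (-1) = -1 := by
      have := hv 0
      rw [hv0] at this
      simp only [zero_add, zero_sub, hv1] at this
      linarith
    have := seq_lower (fun k => V (-(k : ℤ))) E η K T hη hη1 (fun k => ψ (-(k : ℤ))) (by
        intro n
        have h1 := hrec (-((n : ℤ) + 1))
        rw [δn _ (by omega)] at h1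
        have h2 : (-((n : ℤ) + 1) + 1) = -(n : ℤ) := by ring
        have h3 : (-((n : ℤ) + 1) - 1) = -((n + 2 : ℕ) : ℤ) := by push_cast; ring
        have h4 : (-((n : ℤ) + 1)) = -((n + 1 : ℕ) : ℤ) := by push_cast; ring
        rw [h2, h3, h4] at h1
        simp only
        linear_combination h1) (fun k => v (-(k : ℤ))) (fun k => u (-(k : ℤ))) (by
        intro n
        have h1 := hv (-((n : ℤ) + 1))
        have h2 : (-((n : ℤ) + 1) + 1) = -(n : ℤ) := by ring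
        have h3 : (-((n : ℤ) + 1) - 1) = -((n + 2 : ℕ) : ℤ) := by push_cast; ring
        have h4 : (-((n : ℤ) + 1)) = -((n + 1 : ℕ) : ℤ) := by push_cast; ring
        rw [h2, h3, h4] at h1
        linear_combination h1) (by
        intro n
        have h1 := hu (-((n : ℤ) + 1))
        have h2 : (-((n : ℤ) + 1) + 1) = -(n : ℤ) := by ring
        have h3 : (-((n : ℤ) + 1) - 1) = -((n + 2 : ℕ) : ℤ) := by push_cast; ring
        have h4 : (-((n : ℤ) + 1)) = -((n + 1 : ℕ) : ℤ) := by push_cast; ring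
        rw [h2, h3, h4] at h1
        linear_combination h1) (by
        simp only [Nat.cast_zero, neg_zero, Nat.cast_one]
        rw [hv0, hu0, hvm]
        ring) (by
        intro n
        have := bv' (-((n : ℤ) + 1))
        have h2 : (-((n : ℤ) + 1) + 1) = -(n : ℤ) := by ring
        rw [h2] at this
        push_cast
        linarith) (by
        intro n
        have := bu' (-((n : ℤ) + 1))
        have h2 : (-((n : ℤ) + 1) + 1) = -(n : ℤ) := by ring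
        rw [h2] at this
        push_cast
        linarith) (by
        intro N
        exact lp_partial ψ ⟨fun k : ℕ => -(k : ℤ), fun a b h => by
          simp only [neg_inj] at h
          exact_mod_cast h⟩ N)
    simpa using this
  -- the value at 0
  have h0 := hrec 0
  rw [δ0] at h0
  simp only [zero_add, zero_sub] at h0
  have h1 : (1 : ℂ) = ψ 1 + ψ (-1) + ((V 0 : ℂ) - ((E : ℂ) + η * Complex.I)) * ψ 0 := by
    linear_combination -h0
  set M : ℝ := C + R + 1 with hM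
  have hz : ‖(V 0 : ℂ) - ((E : ℂ) + η * Complex.I)‖ ≤ M := by
    have e1 : ‖(V 0 : ℂ)‖ ≤ C := by
      rw [Complex.norm_real]
      exact hC 0
    have e2 : ‖(E : ℂ)‖ ≤ R := by
      rw [Complex.norm_real]
      exact hR
    have e3 : ‖(η : ℂ) * Complex.I‖ ≤ 1 := by
      rw [norm_mul, Complex.norm_real, Complex.norm_I, mul_one, Real.norm_eq_abs, abs_of_pos hη]
      exact hη1
    calc ‖(V 0 : ℂ) - ((E : ℂ) + η * Complex.I)‖
        ≤ ‖(V 0 : ℂ)‖ + ‖(E : ℂ) + η * Complex.I‖ := norm_sub_le _ _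
      _ ≤ ‖(V 0 : ℂ)‖ + (‖(E : ℂ)‖ + ‖(η : ℂ) * Complex.I‖) := by
          gcongr
          exact norm_add_le _ _
      _ ≤ M := by rw [hM]; linarith
  have h2 : (1 : ℝ) ≤ ‖ψ 1‖ + ‖ψ (-1)‖ + M * ‖ψ 0‖ := by
    calc (1 : ℝ) = ‖(1 : ℂ)‖ := by simp
      _ = ‖ψ 1 + ψ (-1) + ((V 0 : ℂ) - ((E : ℂ) + η * Complex.I)) * ψ 0‖ := by rw [← h1]
      _ ≤ ‖ψ 1 + ψ (-1)‖ + ‖((V 0 : ℂ) - ((E : ℂ) + η * Complex.I)) * ψ 0‖ := norm_add_le _ _
      _ ≤ ‖ψ 1‖ + ‖ψ (-1)‖ + ‖((V 0 : ℂ) - ((E : ℂ) + η * Complex.I))‖ * ‖ψ 0‖ := by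
          rw [norm_mul]
          gcongr
          exact norm_add_le _ _
      _ ≤ _ := by gcongr
  have hM0 : 0 ≤ M := by rw [hM]; positivity
  have h3 : (1 : ℝ) ≤ 3 * (1 + M ^ 2) * (‖ψ 1‖ ^ 2 + ‖ψ (-1)‖ ^ 2 + ‖ψ 0‖ ^ 2) := by
    have e1 : (1 : ℝ) ≤ (‖ψ 1‖ + ‖ψ (-1)‖ + M * ‖ψ 0‖) ^ 2 := by
      nlinarith
    have e2 : (‖ψ 1‖ + ‖ψ (-1)‖ + M * ‖ψ 0‖) ^ 2 ≤
        3 * (‖ψ 1‖ ^ 2 + ‖ψ (-1)‖ ^ 2 + (M * ‖ψ 0‖) ^ 2) := by
      nlinarith [sq_nonneg (‖ψ 1‖ - ‖ψ (-1)‖), sq_nonneg (‖ψ 1‖ - M * ‖ψ 0‖),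
        sq_nonneg (‖ψ (-1)‖ - M * ‖ψ 0‖)]
    have e3 : 0 ≤ M ^ 2 * (‖ψ 1‖ ^ 2 + ‖ψ (-1)‖ ^ 2) := by positivity
    have e4 : 0 ≤ ‖ψ 0‖ ^ 2 := by positivity
    nlinarith
  have h4 : ‖ψ 1‖ ^ 2 + ‖ψ (-1)‖ ^ 2 + ‖ψ 0‖ ^ 2 ≤ 96 * K ^ 2 * (η * T) := by
    have : 0 ≤ ‖ψ 0‖ ^ 2 := by positivity
    linarith
  calc (1 : ℝ) ≤ 3 * (1 + M ^ 2) * (‖ψ 1‖ ^ 2 + ‖ψ (-1)‖ ^ 2 + ‖ψ 0‖ ^ 2) := h3
    _ ≤ 3 * (1 + M ^ 2) * (96 * K ^ 2 * (η * T)) := by gcongr
    _ = 288 * K ^ 2 * (1 + M ^ 2) * (η * T) := by ring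

/-- Bounded solutions on a set of energies of positive measure give a spectral measure that is
not singular. -/
theorem not_singular (V : ℤ → ℝ) (C : ℝ) (hC : ∀ n, |V n| ≤ C)
    (H : lp (fun _ : ℤ => ℂ) 2 →L[ℂ] lp (fun _ : ℤ => ℂ) 2)
    (hH : ∀ (ψ : lp (fun _ : ℤ => ℂ) 2) (n : ℤ),
      H ψ n = ψ (n + 1) + ψ (n - 1) + (V n : ℂ) * ψ n)
    (hsa : IsSelfAdjoint H) (μ : Measure ℝ) [IsFiniteMeasure μ]
    (hμ : ∀ f : ℝ → ℝ, Continuous f → Integrable f μ ∧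
      ((∫ x, f x ∂μ : ℝ) : ℂ) = inner ℂ (lp.single 2 (0 : ℤ) (1 : ℂ) : lp (fun _ : ℤ => ℂ) 2)
        (cfcG f H (lp.single 2 (0 : ℤ) (1 : ℂ))))
    (S : Set ℝ) (hS : MeasurableSet S) (hS0 : volume S ≠ 0) (K : ℝ)
    (hK : ∀ E ∈ S, ∀ u : ℤ → ℝ, (∀ n, u (n + 1) + u (n - 1) + V n * u n = E * u n) →
      ∀ n, u n ^ 2 + u (n + 1) ^ 2 ≤ K * (u 0 ^ 2 + u 1 ^ 2)) :
    ¬ μ.MutuallySingular volume := by
  obtain ⟨R, hR⟩ : ∃ R : ℕ, volume (S ∩ Icc (-(R : ℝ)) R) ≠ 0 := by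
    by_contra hcon
    push Not at hcon
    apply hS0
    have : S ⊆ ⋃ R : ℕ, S ∩ Icc (-(R : ℝ)) R := by
      intro x hx
      obtain ⟨R, hR⟩ := exists_nat_ge |x|
      exact mem_iUnion.mpr ⟨R, hx, abs_le.mp hR⟩
    exact measure_mono_null this (measure_iUnion_null hcon)
  have hC0 : 0 ≤ C := (abs_nonneg _).trans (hC 0)
  set B : ℝ := 288 * K ^ 2 * (1 + (C + R + 1) ^ 2) with hB
  have hne : (S ∩ Icc (-(R : ℝ)) R).Nonempty := nonempty_of_measure_ne_zero hR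
  have hBpos : 0 < B := by
    obtain ⟨E, hE, hER⟩ := hne
    have h1 := lower V C hC H hH hsa μ hμ K R E (abs_le.mpr hER) (hK E hE) 1 one_pos le_rfl
    have hB0 : 0 ≤ B := by rw [hB]; positivity
    rcases hB0.lt_or_eq with h | h
    · exact h
    · rw [← hB, ← h] at h1
      norm_num at h1
  refine meas_part μ (S ∩ Icc (-(R : ℝ)) R) (hS.inter measurableSet_Icc) hR (1 / B)
    (by positivity) ?_
  intro E hE η hη hη1
  have h1 := lower V C hC H hH hsa μ hμ K R E (abs_le.mpr hE.2) (hK E hE.1) η hη hη1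
  rw [div_le_iff₀ hBpos, mul_comm]
  exact h1

end Pool.Agent.H585R3.AC508
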