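import Mathlib

set_option autoImplicit false

namespace Pool.Agent.H585R3.AC508

open MeasureTheory

/-- Operator part: the resolvent vector. -/
theorem res_aux {X : Type} [NormedAddCommGroup X] [InnerProductSpace ℂ X] [CompleteSpace X]
    (H : X →L[ℂ] X) (hH : IsSelfAdjoint H) (δ : X) (E η : ℝ) (hη : 0 < η) :
    ∃ ψ : X, H ψ = ((E : ℂ) + η * Complex.I) • ψ + δ ∧
      inner ℂ δ (cfc (fun x : ℝ => η / ((x - E) ^ 2 + η ^ 2)) H δ) =
        ((η * ‖ψ‖ ^ 2 : ℝ) : ℂ) := by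
  set g : ℝ → ℝ := fun x => 1 / ((x - E) ^ 2 + η ^ 2) with hg
  have hpos : ∀ x : ℝ, 0 < (x - E) ^ 2 + η ^ 2 := fun x => by positivity
  have hgc : Continuous g := by
    apply Continuous.div continuous_const (by fun_prop)
    intro x
    exact (hpos x).ne'
  set G : X →L[ℂ] X := cfc g H with hG
  set A : X →L[ℂ] X := H - (E : ℂ) • (1 : X →L[ℂ] X) with hA
  have hAsa : IsSelfAdjoint A := by
    apply hH.sub
    rw [IsSelfAdjoint, star_smul, star_one]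
    simp
  have h1 : A = cfc (fun x : ℝ => x - E) H := by
    rw [cfc_sub (a := H) (f := fun x : ℝ => x) (g := fun _ : ℝ => E), cfc_id' ℝ H, cfc_const E H]
    rw [hA, Algebra.algebraMap_eq_smul_one]
    congr 1
  have h2 : A * A + ((η ^ 2 : ℝ) : ℂ) • (1 : X →L[ℂ] X) =
      cfc (fun x : ℝ => (x - E) ^ 2 + η ^ 2) H := by
    rw [cfc_add (a := H) (f := fun x : ℝ => (x - E) ^ 2) (g := fun _ : ℝ => η ^ 2),
      cfc_const (η ^ 2) H, cfc_pow (a := H) (f := fun x : ℝ => x - E) (n := 2), ← h1,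
      Algebra.algebraMap_eq_smul_one, pow_two]
    congr 1
  have h3 : (A * A + ((η ^ 2 : ℝ) : ℂ) • (1 : X →L[ℂ] X)) * G = 1 := by
    rw [h2, hG, ← cfc_mul (a := H) (f := fun x : ℝ => (x - E) ^ 2 + η ^ 2) (g := g)
      (by fun_prop) hgc.continuousOn]
    have : (fun x : ℝ => ((x - E) ^ 2 + η ^ 2) * g x) = fun _ => (1 : ℝ) := by
      funext x
      rw [hg]
      field_simp [(hpos x).ne']
    rw [this, cfc_const_one ℝ H]
  have h4 : cfc (fun x : ℝ => η / ((x - E) ^ 2 + η ^ 2)) H = (η : ℂ) • G := by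
    have : (fun x : ℝ => η / ((x - E) ^ 2 + η ^ 2)) = fun x => η • g x := by
      funext x
      rw [hg]
      simp only [smul_eq_mul]
      ring
    rw [this, cfc_smul (a := H) (s := η) (f := g) hgc.continuousOn, ← hG]
    ext x
    simp
  set φ : X := G δ with hφ
  have h5 : A (A φ) + ((η ^ 2 : ℝ) : ℂ) • φ = δ := by
    have := congrArg (fun T : X →L[ℂ] X => T δ) h3
    simpa using this
  have hsym : ∀ x y : X, inner ℂ (A x) y = inner ℂ x (A y) := by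
    intro x y
    have := (ContinuousLinearMap.isSelfAdjoint_iff_isSymmetric.mp hAsa) x y
    simpa using this
  refine ⟨A φ + ((η : ℂ) * Complex.I) • φ, ?_, ?_⟩
  · have h6 : ∀ x : X, H x = A x + (E : ℂ) • x := by
      intro x
      rw [hA]
      simp
    rw [h6 (A φ + ((η : ℂ) * Complex.I) • φ)]
    rw [map_add, map_smul, ← h5]
    push_cast
    rw [add_smul, smul_add (_ * Complex.I), smul_smul ((η : ℂ) * Complex.I)]
    have : (η : ℂ) * Complex.I * ((η : ℂ) * Complex.I) = -(η : ℂ) ^ 2 := by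
      ring_nf
      rw [Complex.I_sq]
      ring
    rw [this]
    module
  · rw [h4]
    simp only [smul_apply, inner_smul_right]
    rw [← hφ]
    have h7 : inner ℂ δ φ = ((‖A φ‖ ^ 2 + η ^ 2 * ‖φ‖ ^ 2 : ℝ) : ℂ) := by
      conv_lhs => rw [← h5]
      rw [inner_add_left, inner_smul_left, hsym, inner_self_eq_norm_sq_to_K,
        inner_self_eq_norm_sq_to_K]
      push_cast
      simp
    have h8 : ‖A φ + ((η : ℂ) * Complex.I) • φ‖ ^ 2 = ‖A φ‖ ^ 2 + η ^ 2 * ‖φ‖ ^ 2 := by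
      rw [norm_add_sq (𝕜 := ℂ), inner_smul_right, norm_smul]
      have h9 : (inner ℂ (A φ) φ).im = 0 := by
        have e1 : (starRingEnd ℂ) (inner ℂ (A φ) φ) = inner ℂ (A φ) φ := by
          rw [inner_conj_symm, ← hsym]
        exact Complex.conj_eq_iff_im.mp e1
      have h10 : RCLike.re ((η : ℂ) * Complex.I * inner ℂ (A φ) φ) = 0 := by
        simp [h9]
      rw [h10]
      simp only [Complex.norm_mul, Complex.norm_real, Complex.norm_I, mul_one, Real.norm_eq_abs]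
      rw [mul_pow, sq_abs]
      ring
    rw [h7, h8]
    push_cast
    ring


/-- Sequence part. -/
theorem seq_lower (W : ℕ → ℝ) (E η K T : ℝ) (hη : 0 < η) (hη1 : η ≤ 1) (ψ : ℕ → ℂ)
    (hψ : ∀ n, ψ (n + 2) = ((E : ℂ) + η * Complex.I - W (n + 1)) * ψ (n + 1) - ψ n)
    (u v : ℕ → ℝ) (hu : ∀ n, u (n + 2) = (E - W (n + 1)) * u (n + 1) - u n)
    (hv : ∀ n, v (n + 2) = (E - W (n + 1)) * v (n + 1) - v n)
    (hw : u 0 * v 1 - u 1 * v 0 = 1)
    (hbu : ∀ n, u n ^ 2 + u (n + 1) ^ 2 ≤ K) (hbv : ∀ n, v n ^ 2 + v (n + 1) ^ 2 ≤ K)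
    (hT : ∀ N, ∑ k ∈ Finset.range N, ‖ψ k‖ ^ 2 ≤ T) :
    ‖ψ 0‖ ^ 2 + ‖ψ 1‖ ^ 2 ≤ 48 * K ^ 2 * (η * T) := by
  have hK : 0 ≤ K := le_trans (by positivity) (hbu 0)
  have hT0 : 0 ≤ T := by simpa using hT 0
  have key : ∀ (x y : ℕ → ℝ) (hx : ∀ n, x (n + 2) = (E - W (n + 1)) * x (n + 1) - x n)
      (hbx : ∀ n, x n ^ 2 + x (n + 1) ^ 2 ≤ K),
      ∀ n : ℕ, η * n ≤ 1 →
        ‖ψ 0 * x 1 - ψ 1 * x 0‖ ^ 2 ≤ 2 * K * (‖ψ n‖ ^ 2 + ‖ψ (n + 1)‖ ^ 2) + 2 * (K * (η * T)) := by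
    intro x y hx hbx n hn
    set a : ℕ → ℂ := fun n => ψ n * x (n + 1) - ψ (n + 1) * x n with ha
    have h1 : ∀ n, a (n + 1) - a n = -(η * Complex.I) * (ψ (n + 1) * x (n + 1)) := by
      intro n
      simp only [ha]
      rw [show n + 1 + 1 = n + 2 from rfl, hψ n, hx n]
      push_cast
      ring
    have h2 : ∀ n, a n - a 0 =
        -(η * Complex.I) * ∑ k ∈ Finset.range n, ψ (k + 1) * x (k + 1) := by
      intro n
      induction n with
      | zero => simp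
      | succ n ih =>
        rw [Finset.sum_range_succ, mul_add, ← h1, ← ih]
        ring
    have h3 : ‖a n - a 0‖ ^ 2 ≤ K * (η * T) := by
      rw [h2, norm_mul, mul_pow]
      have e1 : ‖-((η : ℂ) * Complex.I)‖ = η := by
        rw [norm_neg, norm_mul, Complex.norm_real, Complex.norm_I, mul_one, Real.norm_eq_abs,
          abs_of_pos hη]
      rw [e1]
      have e2 : ‖∑ k ∈ Finset.range n, ψ (k + 1) * x (k + 1)‖ ≤
          ∑ k ∈ Finset.range n, ‖ψ (k + 1)‖ * |x (k + 1)| := by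
        refine (norm_sum_le _ _).trans (le_of_eq ?_)
        apply Finset.sum_congr rfl
        intro k _
        rw [norm_mul, Complex.norm_real, Real.norm_eq_abs]
      have e3 : (∑ k ∈ Finset.range n, ‖ψ (k + 1)‖ * |x (k + 1)|) ^ 2 ≤
          (∑ k ∈ Finset.range n, ‖ψ (k + 1)‖ ^ 2) * ∑ k ∈ Finset.range n, |x (k + 1)| ^ 2 :=
        Finset.sum_mul_sq_le_sq_mul_sq _ _ _
      have e4 : ∑ k ∈ Finset.range n, ‖ψ (k + 1)‖ ^ 2 ≤ T := by
        refine le_trans ?_ (hT (n + 1))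
        rw [Finset.sum_range_succ']
        have : 0 ≤ ‖ψ 0‖ ^ 2 := by positivity
        linarith
      have e5 : ∑ k ∈ Finset.range n, |x (k + 1)| ^ 2 ≤ n * K := by
        have : ∀ k ∈ Finset.range n, |x (k + 1)| ^ 2 ≤ K := by
          intro k _
          rw [sq_abs]
          have := hbx (k + 1)
          have h0 : 0 ≤ x (k + 1 + 1) ^ 2 := by positivity
          linarith
        have := Finset.sum_le_card_nsmul _ _ _ this
        simpa using this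
      have e6 : ‖∑ k ∈ Finset.range n, ψ (k + 1) * x (k + 1)‖ ^ 2 ≤ T * (n * K) := by
        calc ‖∑ k ∈ Finset.range n, ψ (k + 1) * x (k + 1)‖ ^ 2
            ≤ (∑ k ∈ Finset.range n, ‖ψ (k + 1)‖ * |x (k + 1)|) ^ 2 :=
              pow_le_pow_left₀ (norm_nonneg _) e2 2
          _ ≤ _ := e3
          _ ≤ T * (n * K) := by
              apply mul_le_mul e4 e5 (by positivity) hT0
      calc η ^ 2 * ‖∑ k ∈ Finset.range n, ψ (k + 1) * x (k + 1)‖ ^ 2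
          ≤ η ^ 2 * (T * (n * K)) := by gcongr
        _ = (η * n) * (K * (η * T)) := by ring
        _ ≤ 1 * (K * (η * T)) := by gcongr
        _ = K * (η * T) := one_mul _
    have h4 : ‖a n‖ ^ 2 ≤ K * (‖ψ n‖ ^ 2 + ‖ψ (n + 1)‖ ^ 2) := by
      have e1 : ‖a n‖ ≤ ‖ψ n‖ * |x (n + 1)| + ‖ψ (n + 1)‖ * |x n| := by
        simp only [ha]
        refine (norm_sub_le _ _).trans (le_of_eq ?_)
        rw [norm_mul, norm_mul, Complex.norm_real, Complex.norm_real, Real.norm_eq_abs,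
          Real.norm_eq_abs]
      have e2 : ‖a n‖ ^ 2 ≤ (‖ψ n‖ * |x (n + 1)| + ‖ψ (n + 1)‖ * |x n|) ^ 2 :=
        pow_le_pow_left₀ (norm_nonneg _) e1 2
      have e3 : (‖ψ n‖ * |x (n + 1)| + ‖ψ (n + 1)‖ * |x n|) ^ 2 ≤
          (‖ψ n‖ ^ 2 + ‖ψ (n + 1)‖ ^ 2) * (|x n| ^ 2 + |x (n + 1)| ^ 2) := by
        nlinarith [sq_nonneg (‖ψ n‖ * |x n| - ‖ψ (n + 1)‖ * |x (n + 1)|)]
      rw [sq_abs, sq_abs] at e3
      calc ‖a n‖ ^ 2 ≤ _ := e2
        _ ≤ _ := e3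
        _ ≤ (‖ψ n‖ ^ 2 + ‖ψ (n + 1)‖ ^ 2) * K := by
            gcongr
            exact hbx n
        _ = _ := by ring
    have h5 : ‖a 0‖ ^ 2 ≤ 2 * ‖a n‖ ^ 2 + 2 * ‖a n - a 0‖ ^ 2 := by
      have e1 : ‖a 0‖ ≤ ‖a n‖ + ‖a n - a 0‖ := by
        have : a 0 = a n - (a n - a 0) := by ring
        calc ‖a 0‖ = ‖a n - (a n - a 0)‖ := by rw [← this]
          _ ≤ _ := norm_sub_le _ _
      have e2 : ‖a 0‖ ^ 2 ≤ (‖a n‖ + ‖a n - a 0‖) ^ 2 := pow_le_pow_left₀ (norm_nonneg _) e1 2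
      nlinarith [sq_nonneg (‖a n‖ - ‖a n - a 0‖)]
    have h6 : a 0 = ψ 0 * x 1 - ψ 1 * x 0 := by simp [ha]
    rw [← h6]
    nlinarith
  have ka := key v u hv hbv
  have kb := key u v hu hbu
  -- sum up
  set A : ℝ := ‖ψ 0 * v 1 - ψ 1 * v 0‖ ^ 2 + ‖ψ 0 * u 1 - ψ 1 * u 0‖ ^ 2 with hA
  have hAb : ∀ n : ℕ, η * n ≤ 1 →
      A ≤ 4 * K * (‖ψ n‖ ^ 2 + ‖ψ (n + 1)‖ ^ 2) + 4 * (K * (η * T)) := by
    intro n hn
    have := ka n hn
    have := kb n hn
    rw [hA]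
    linarith
  set N : ℕ := ⌊1 / η⌋₊ with hN
  have hN1 : η * N ≤ 1 := by
    have : (N : ℝ) ≤ 1 / η := Nat.floor_le (by positivity)
    calc η * N ≤ η * (1 / η) := by gcongr
      _ = 1 := by field_simp
  have hN2 : 1 / 2 ≤ η * N := by
    have h1 : 1 / η < N + 1 := Nat.lt_floor_add_one _
    have h2 : 1 < η * (N + 1) := by
      rw [div_lt_iff₀ hη] at h1
      linarith
    have h3 : 1 ≤ N := by
      rw [hN]
      apply Nat.le_floor
      rw [Nat.cast_one, le_div_iff₀ hη]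
      linarith
    have h4 : (1 : ℝ) ≤ N := by exact_mod_cast h3
    nlinarith
  have hsum : N * A ≤ 4 * K * (2 * T) + N * (4 * (K * (η * T))) := by
    have h1 : ∑ n ∈ Finset.range N, A ≤ ∑ n ∈ Finset.range N,
        (4 * K * (‖ψ n‖ ^ 2 + ‖ψ (n + 1)‖ ^ 2) + 4 * (K * (η * T))) := by
      apply Finset.sum_le_sum
      intro n hn
      apply hAb n
      have : (n : ℝ) ≤ N := by exact_mod_cast (Finset.mem_range.mp hn).le
      calc η * n ≤ η * N := by gcongr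
        _ ≤ 1 := hN1
    rw [Finset.sum_const, Finset.card_range, nsmul_eq_mul, Finset.sum_add_distrib,
      ← Finset.mul_sum, Finset.sum_const, Finset.card_range, nsmul_eq_mul,
      Finset.sum_add_distrib] at h1
    have h2 : ∑ n ∈ Finset.range N, ‖ψ (n + 1)‖ ^ 2 ≤ T := by
      refine le_trans ?_ (hT (N + 1))
      rw [Finset.sum_range_succ' (fun k => ‖ψ k‖ ^ 2)]
      have : 0 ≤ ‖ψ 0‖ ^ 2 := by positivity
      linarith
    have h3 := hT N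
    have h4 : 4 * K * (∑ n ∈ Finset.range N, ‖ψ n‖ ^ 2 + ∑ n ∈ Finset.range N, ‖ψ (n + 1)‖ ^ 2) ≤
        4 * K * (2 * T) := by
      apply mul_le_mul_of_nonneg_left _ (by positivity)
      linarith
    linarith
  have hA24 : A ≤ 24 * K * (η * T) := by
    have h1 : η * (N * A) ≤ η * (4 * K * (2 * T) + N * (4 * (K * (η * T)))) := by gcongr
    have h2 : 1 / 2 * A ≤ η * N * A := by
      apply mul_le_mul_of_nonneg_right hN2
      rw [hA]; positivity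
    have h3 : (η * N) * (4 * (K * (η * T))) ≤ 1 * (4 * (K * (η * T))) := by
      apply mul_le_mul_of_nonneg_right hN1
      positivity
    nlinarith
  -- recover ψ 0, ψ 1
  have r0 : ψ 0 = (ψ 0 * v 1 - ψ 1 * v 0) * u 0 - (ψ 0 * u 1 - ψ 1 * u 0) * v 0 := by
    have : ((u 0 * v 1 - u 1 * v 0 : ℝ) : ℂ) = 1 := by rw [hw]; simp
    push_cast at this
    linear_combination (-ψ 0) * this
  have r1 : ψ 1 = (ψ 0 * v 1 - ψ 1 * v 0) * u 1 - (ψ 0 * u 1 - ψ 1 * u 0) * v 1 := by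
    have : ((u 0 * v 1 - u 1 * v 0 : ℝ) : ℂ) = 1 := by rw [hw]; simp
    push_cast at this
    linear_combination (-ψ 1) * this
  set P : ℂ := ψ 0 * v 1 - ψ 1 * v 0
  set Q : ℂ := ψ 0 * u 1 - ψ 1 * u 0
  have bd : ∀ (s t : ℝ), ‖P * s - Q * t‖ ^ 2 ≤ (‖P‖ ^ 2 + ‖Q‖ ^ 2) * (s ^ 2 + t ^ 2) := by
    intro s t
    have e1 : ‖P * s - Q * t‖ ≤ ‖P‖ * |s| + ‖Q‖ * |t| := by
      refine (norm_sub_le _ _).trans (le_of_eq ?_)
      rw [norm_mul, norm_mul, Complex.norm_real, Complex.norm_real, Real.norm_eq_abs,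
        Real.norm_eq_abs]
    have e2 : ‖P * s - Q * t‖ ^ 2 ≤ (‖P‖ * |s| + ‖Q‖ * |t|) ^ 2 :=
      pow_le_pow_left₀ (norm_nonneg _) e1 2
    rw [← sq_abs s, ← sq_abs t]
    nlinarith [sq_nonneg (‖P‖ * |t| - ‖Q‖ * |s|)]
  have b0 := bd (u 0) (v 0)
  have b1 := bd (u 1) (v 1)
  rw [← r0] at b0
  rw [← r1] at b1
  have c1 := hbu 0
  have c2 := hbv 0
  simp only [zero_add] at c1 c2
  have hA0 : 0 ≤ A := by rw [hA]; positivity
  have c3 : ‖ψ 0‖ ^ 2 + ‖ψ 1‖ ^ 2 ≤ A * (2 * K) := by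
    calc ‖ψ 0‖ ^ 2 + ‖ψ 1‖ ^ 2 ≤ A * (u 0 ^ 2 + v 0 ^ 2) + A * (u 1 ^ 2 + v 1 ^ 2) := by
          rw [hA]; linarith
      _ = A * ((u 0 ^ 2 + u 1 ^ 2) + (v 0 ^ 2 + v 1 ^ 2)) := by ring
      _ ≤ A * (2 * K) := by
          apply mul_le_mul_of_nonneg_left _ hA0
          linarith
  calc ‖ψ 0‖ ^ 2 + ‖ψ 1‖ ^ 2 ≤ A * (2 * K) := c3
    _ ≤ (24 * K * (η * T)) * (2 * K) := by gcongr
    _ = 48 * K ^ 2 * (η * T) := by ring

end Pool.Agent.H585R3.AC508
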